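import Mathlib
import Pool.Agent.Q175.FillPara

/-!
# Paracompact subspaces filling countable subproducts

If a subspace of a product fills all countable subproducts and is paracompact (Hausdorff), then
all but countably many factors are compact.
-/

open Set Topology

namespace Pool.Agent.Results.MP_5f6599_gt.NeverParacompact

/-- `D` fills countable subproducts: for every non-empty countable set `J` of indices, the
projection of `D` to the subproduct over `J` is onto. -/
def FillsCountableSubproducts {ι : Type*} {X : ι → Type*} (D : Set (∀ i, X i)) : Prop :=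
  ∀ J : Set ι, J.Nonempty → J.Countable →
    (fun (x : ∀ i, X i) (j : J) => x j) '' D = (univ : Set (∀ j : J, X j))

theorem fills {ι : Type*} {X : ι → Type*} [∀ i, Nonempty (X i)] {D : Set (∀ i, X i)} {i₀ : ι}
    (hD : FillsCountableSubproducts D) : Q175.Fill.FillsCountable D := by
  intro J hJ x
  have h1 : (fun j : (insert i₀ J : Set ι) => x j) ∈
      (fun (x : ∀ i, X i) (j : (insert i₀ J : Set ι)) => x j) '' D := by
    rw [hD (insert i₀ J) (insert_nonempty _ _) (hJ.insert _)]
    exact mem_univ _
  obtain ⟨d, hd, hdx⟩ := h1
  exact ⟨d, hd, fun i hi => congrFun hdx ⟨i, mem_insert_of_mem _ hi⟩⟩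

/-- If `D` fills countable subproducts and is paracompact and Hausdorff, then all but countably
many factors are compact. In particular, if there are uncountably many factors and none of them is
compact, then `D` is not paracompact. -/
theorem result {ι : Type*} {X : ι → Type*} [∀ i, TopologicalSpace (X i)] (D : Set (∀ i, X i))
    (hD : FillsCountableSubproducts D) (hT2 : T2Space D) (hpara : ParacompactSpace D) :
    {i | ¬ CompactSpace (X i)}.Countable := by
  classical
  rcases {i | ¬ CompactSpace (X i)}.eq_empty_or_nonempty with h | ⟨i₀, hi₀⟩
  · rw [h]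
    exact countable_empty
  have hne₀ : Nonempty (X i₀) := by
    by_contra h
    rw [not_nonempty_iff] at h
    exact hi₀ inferInstance
  obtain ⟨x₀⟩ := hne₀
  -- a point of `D`
  have h1 : (fun j : ({i₀} : Set ι) => (by rw [show (j : ι) = i₀ from j.2]; exact x₀ : X j)) ∈
      (fun (x : ∀ i, X i) (j : ({i₀} : Set ι)) => x j) '' D := by
    rw [hD {i₀} (singleton_nonempty _) (countable_singleton _)]
    exact mem_univ _
  obtain ⟨d, _, _⟩ := h1
  have hne : ∀ i, Nonempty (X i) := fun i => ⟨d i⟩
  exact Q175.Fill.countable_noncompact (fills (i₀ := i₀) hD)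

end Pool.Agent.Results.MP_5f6599_gt.NeverParacompact
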